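import Pool.Agent.Helper63.Sey3.Goals
import Pool.Agent.Helper48.Sey.HALF

/-!
# Packet HALF of project SEY3 (MP_b6b2d3_co)
-/

namespace Pool.Agent.Helper72.Sey3

open Finset
open Pool.Agent.Helper41.Girth4 (Pr)
open Pool.Agent.Helper8.Sey (near NearBd near_symm near_half near_three)
open Pool.Agent.Helper63.Sey3

/-- flip one coordinate -/
def flp {I : Type} [DecidableEq I] (i : I) : (I → Bool) ≃ (I → Bool) where
  toFun ω := Function.update ω i (!ω i)
  invFun ω := Function.update ω i (!ω i)
  left_inv ω := by simp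
  right_inv ω := by simp

theorem quarter {I : Type} [Fintype I] [DecidableEq I] (i j : I) (bx by' b : Bool)
    (h : i = j → bx ≠ by') :
    4 * (∑ ω : I → Bool, if xor (ω i) bx = b ∧ xor (ω j) by' = b then (1 : ℝ) else 0) ≤
      Fintype.card (I → Bool) := by
  by_cases hij : i = j
  · subst hij
    have h' := h rfl
    rw [Finset.sum_eq_zero]
    · simp
    · intro ω _
      rw [if_neg]
      rintro ⟨h1, h2⟩
      apply h'
      revert h1 h2
      generalize ω i = z
      cases z <;> cases bx <;> cases by' <;> cases b <;> simp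
  · let F : (I → Bool) → ℝ := fun ω => if xor (ω i) bx = b ∧ xor (ω j) by' = b then 1 else 0
    have e1 : ∑ ω, F (flp i ω) = ∑ ω, F ω := Equiv.sum_comp (flp i) F
    have e2 : ∑ ω, F (flp j ω) = ∑ ω, F ω := Equiv.sum_comp (flp j) F
    have e3 : ∑ ω, F (flp i (flp j ω)) = ∑ ω, F ω := by
      rw [Equiv.sum_comp (flp j) (fun ω => F (flp i ω)), e1]
    have e4 : ∀ ω, F ω + F (flp i ω) + F (flp j ω) + F (flp i (flp j ω)) = 1 := by
      intro ω
      have a1 : flp i ω i = !ω i := by simp [flp]
      have a2 : flp i ω j = ω j := by simp [flp, Function.update_of_ne (Ne.symm hij)]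
      have a3 : flp j ω i = ω i := by simp [flp, Function.update_of_ne hij]
      have a4 : flp j ω j = !ω j := by simp [flp]
      have a5 : flp i (flp j ω) i = !ω i := by
        simp [flp, Function.update_of_ne hij]
      have a6 : flp i (flp j ω) j = !ω j := by
        simp [flp, Function.update_of_ne (Ne.symm hij)]
      simp only [F, a1, a2, a3, a4, a5, a6]
      generalize ω i = z
      generalize ω j = z'
      cases z <;> cases z' <;> cases bx <;> cases by' <;> cases b <;> norm_num
    have e5 : ∑ ω : I → Bool, (F ω + F (flp i ω) + F (flp j ω) + F (flp i (flp j ω))) =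
        Fintype.card (I → Bool) := by
      rw [Finset.sum_congr rfl (fun ω _ => e4 ω)]
      simp
    rw [Finset.sum_add_distrib, Finset.sum_add_distrib, Finset.sum_add_distrib, e1, e2, e3] at e5
    show 4 * ∑ ω, F ω ≤ _
    linarith

/-- number of pairs with both sides equal to `b` -/
def cnt {I V : Type} (key : V → I) (bit : V → Bool) (b : Bool) (Q : Finset (V × V))
    (ω : I → Bool) : ℕ :=
  (Q.filter (fun p => xor (ω (key p.1)) (bit p.1) = b ∧ xor (ω (key p.2)) (bit p.2) = b)).card

theorem cnt_mean {I A V : Type} [Fintype A] [DecidableEq A] (key : V → I) (bit : V → Bool)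
    (b : Bool) (Q : Finset (V × V)) (E : ℕ) (hQ : Q.card ≤ E) (ext : (A → Bool) → (I → Bool))
    (hext : ∀ p ∈ Q, ∃ i j : A, (∀ y, ext y (key p.1) = y i) ∧ (∀ y, ext y (key p.2) = y j) ∧
      (i = j → bit p.1 ≠ bit p.2)) :
    (∑ y : A → Bool, (cnt key bit b Q (ext y) : ℝ)) / Fintype.card (A → Bool) ≤ (E : ℝ) / 4 := by
  have hc : (0 : ℝ) < Fintype.card (A → Bool) := by exact_mod_cast Fintype.card_pos
  rw [div_le_iff₀ hc]
  have e1 : (∑ y : A → Bool, (cnt key bit b Q (ext y) : ℝ)) = ∑ p ∈ Q, ∑ y : A → Bool,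
      if xor (ext y (key p.1)) (bit p.1) = b ∧ xor (ext y (key p.2)) (bit p.2) = b
        then (1 : ℝ) else 0 := by
    rw [Finset.sum_comm]
    refine Finset.sum_congr rfl (fun ω _ => ?_)
    rw [Finset.sum_boole]
    rfl
  have e2 : 4 * (∑ y : A → Bool, (cnt key bit b Q (ext y) : ℝ)) ≤
      (Q.card : ℝ) * Fintype.card (A → Bool) := by
    rw [e1, Finset.mul_sum, ← nsmul_eq_mul, ← Finset.sum_const]
    refine Finset.sum_le_sum (fun p hp => ?_)
    obtain ⟨i, j, h1, h2, h3⟩ := hext p hp
    simp only [h1, h2]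
    exact quarter _ _ _ _ _ h3
  have e3 : (Q.card : ℝ) * Fintype.card (A → Bool) ≤ (E : ℝ) * Fintype.card (A → Bool) :=
    mul_le_mul_of_nonneg_right (by exact_mod_cast hQ) hc.le
  linarith

theorem card_touch {I V : Type} [DecidableEq I] [DecidableEq V] (N : Finset V) (key : V → I)
    (bit : V → Bool) (hinj : ∀ u ∈ N, ∀ v ∈ N, key u = key v → bit u = bit v → u = v)
    (Q : Finset (V × V)) (D : ℕ) (hQ1 : ∀ p ∈ Q, p.1 ∈ N ∧ p.2 ∈ N) (hN : N.card ≤ D) (i : I) :
    (Q.filter (fun p => key p.1 = i ∨ key p.2 = i)).card ≤ 4 * D := by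
  let M : Finset V := N.filter (fun u => key u = i)
  have hM : M.card ≤ 2 := by
    have : M.card ≤ (univ : Finset Bool).card := by
      refine Finset.card_le_card_of_injOn bit (fun _ _ => by simp) ?_
      intro w hw w' hw' h
      have a := mem_filter.1 (Finset.mem_coe.1 hw)
      have a' := mem_filter.1 (Finset.mem_coe.1 hw')
      exact hinj w a.1 w' a'.1 (a.2.trans a'.2.symm) h
    simpa using this
  have hsub : Q.filter (fun p => key p.1 = i ∨ key p.2 = i) ⊆ M ×ˢ N ∪ N ×ˢ M := by
    intro p hp
    obtain ⟨h1, h2⟩ := mem_filter.1 hp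
    obtain ⟨h3, h4⟩ := hQ1 p h1
    rw [mem_union, mem_product, mem_product]
    rcases h2 with h2 | h2
    · exact Or.inl ⟨mem_filter.2 ⟨h3, h2⟩, h4⟩
    · exact Or.inr ⟨h3, mem_filter.2 ⟨h4, h2⟩⟩
  refine (Finset.card_le_card hsub).trans ((Finset.card_union_le _ _).trans ?_)
  rw [Finset.card_product, Finset.card_product]
  nlinarith [Nat.mul_le_mul hM hN, Nat.mul_le_mul hN hM]

theorem cnt_diff {I V : Type} [DecidableEq I] [DecidableEq V] (N : Finset V) (key : V → I)
    (bit : V → Bool) (hinj : ∀ u ∈ N, ∀ v ∈ N, key u = key v → bit u = bit v → u = v) (b : Bool)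
    (Q : Finset (V × V)) (D : ℕ) (hQ1 : ∀ p ∈ Q, p.1 ∈ N ∧ p.2 ∈ N) (hN : N.card ≤ D) (i : I)
    (ω ω' : I → Bool) (h : ∀ j, j ≠ i → ω j = ω' j) :
    cnt key bit b Q ω ≤ cnt key bit b Q ω' + 4 * D := by
  unfold cnt
  refine le_trans ?_ (Nat.add_le_add_left (card_touch N key bit hinj Q D hQ1 hN i) _)
  refine le_trans (Finset.card_le_card ?_) (Finset.card_union_le _ _)
  intro p hp
  obtain ⟨h1, h2⟩ := mem_filter.1 hp
  rw [mem_union, mem_filter, mem_filter]
  by_cases h3 : key p.1 = i ∨ key p.2 = i
  · exact Or.inr ⟨h1, h3⟩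
  · rw [not_or] at h3
    rw [h _ h3.1, h _ h3.2] at h2
    exact Or.inl ⟨h1, h2⟩

/-- the tail bound for the pairs -/
theorem tailB (hMCD : GoalMCD) {I V : Type} [Fintype I] [DecidableEq I] [DecidableEq V]
    (N : Finset V) (key : V → I)
    (bit : V → Bool) (hinj : ∀ u ∈ N, ∀ v ∈ N, key u = key v → bit u = bit v → u = v) (b : Bool)
    (Q : Finset (V × V)) (D E E' : ℕ) (hQ1 : ∀ p ∈ Q, p.1 ∈ N ∧ p.2 ∈ N)
    (hQ2 : ∀ p ∈ Q, p.1 ≠ p.2) (hN : N.card ≤ D) (hQ : Q.card ≤ E) (hD : 1 ≤ D)
    (hE : E ≤ 4 * E') :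
    Pr (fun ω : I → Bool => E' < cnt key bit b Q ω) ≤
      Real.exp (-(((E' : ℝ) - E / 4) ^ 2 / (32 * (D : ℝ) ^ 3))) := by
  classical
  rcases N.eq_empty_or_nonempty with hN0 | hN0
  · have h : ∀ ω : I → Bool, ¬ E' < cnt key bit b Q ω := by
      intro ω
      have hQ0 : Q = ∅ := by
        rw [Finset.eq_empty_iff_forall_notMem]
        intro p hp
        have := (hQ1 p hp).1
        rw [hN0] at this
        exact absurd this (Finset.notMem_empty _)
      simp [cnt, hQ0]
    have h2 : Pr (fun ω : I → Bool => E' < cnt key bit b Q ω) ≤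
        Pr (fun _ : I → Bool => False) :=
      Pool.Agent.Helper41.Girth4.Pr_mono h
    rw [Pool.Agent.Helper41.Girth4.Pr_false] at h2
    exact h2.trans (Real.exp_pos _).le
  let A : Type := {i // i ∈ N.image key}
  let ext : (A → Bool) → (I → Bool) := fun y i => if h : i ∈ N.image key then y ⟨i, h⟩ else false
  have hlam : (0 : ℝ) ≤ (E' : ℝ) - E / 4 := by
    have : (E : ℝ) ≤ 4 * E' := by exact_mod_cast hE
    linarith
  have e0 : ∀ ω : I → Bool, cnt key bit b Q ω = cnt key bit b Q (ext (ω ∘ Subtype.val)) := by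
    intro ω
    unfold cnt
    congr 1
    refine Finset.filter_congr (fun p hp => ?_)
    obtain ⟨h1, h2⟩ := hQ1 p hp
    have k1 : ext (ω ∘ Subtype.val) (key p.1) = ω (key p.1) := by
      simp only [ext]
      rw [dif_pos (mem_image_of_mem _ h1)]
      rfl
    have k2 : ext (ω ∘ Subtype.val) (key p.2) = ω (key p.2) := by
      simp only [ext]
      rw [dif_pos (mem_image_of_mem _ h2)]
      rfl
    rw [k1, k2]
  have e1 : Pr (fun ω : I → Bool => E' < cnt key bit b Q ω) =
      Pr (fun y : A → Bool => E' < cnt key bit b Q (ext y)) := by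
    rw [← Pool.Agent.Helper51.Girth4.stmtUnif (Subtype.val : A → I) Subtype.val_injective
      (fun y : A → Bool => E' < cnt key bit b Q (ext y))]
    apply Pool.Agent.Helper41.Girth4.Pr_congr
    intro ω
    rw [e0 ω]
  rw [e1]
  let f : (A → Bool) → ℝ := fun y => -(cnt key bit b Q (ext y) : ℝ)
  have hdiff : ∀ y i l, |f (Function.update y i l) - f y| ≤ 4 * (D : ℝ) := by
    intro y i l
    have hne : ∀ j, j ≠ i.1 → ext (Function.update y i l) j = ext y j := by
      intro j hj
      simp only [ext]
      split_ifs with h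
      · rw [Function.update_of_ne]
        intro h'
        exact hj (congrArg Subtype.val h')
      · rfl
    have k1 := cnt_diff N key bit hinj b Q D hQ1 hN i.1 _ _ hne
    have k2 := cnt_diff N key bit hinj b Q D hQ1 hN i.1 _ _ (fun j hj => (hne j hj).symm)
    have k1' : (cnt key bit b Q (ext (Function.update y i l)) : ℝ) ≤
        cnt key bit b Q (ext y) + 4 * D := by exact_mod_cast k1
    have k2' : (cnt key bit b Q (ext y) : ℝ) ≤
        cnt key bit b Q (ext (Function.update y i l)) + 4 * D := by exact_mod_cast k2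
    rw [abs_le]
    constructor <;> simp only [f] <;> linarith
  have h2 := hMCD A Bool f (4 * D) ((E' : ℝ) - E / 4) (by positivity) hlam hdiff
  have hmean := cnt_mean key bit b Q E hQ ext (by
    intro p hp
    obtain ⟨h1, h2⟩ := hQ1 p hp
    refine ⟨⟨key p.1, mem_image_of_mem _ h1⟩, ⟨key p.2, mem_image_of_mem _ h2⟩, ?_, ?_, ?_⟩
    · intro y
      simp only [ext]
      rw [dif_pos (mem_image_of_mem _ h1)]
    · intro y
      simp only [ext]
      rw [dif_pos (mem_image_of_mem _ h2)]
    · intro h3 h4
      exact hQ2 p hp (hinj _ h1 _ h2 (congrArg Subtype.val h3) h4))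
  have e2 : Pr (fun y : A → Bool => E' < cnt key bit b Q (ext y)) ≤
      Pr (fun y : A → Bool => f y ≤ (∑ y', f y') / Fintype.card (A → Bool) -
        ((E' : ℝ) - E / 4)) := by
    apply Pool.Agent.Helper41.Girth4.Pr_mono
    intro y hy
    have k1 : (E' : ℝ) ≤ cnt key bit b Q (ext y) := by exact_mod_cast hy.le
    have k2 : (∑ y', f y') = -∑ y', (cnt key bit b Q (ext y') : ℝ) := by
      simp only [f]
      rw [Finset.sum_neg_distrib]
    rw [k2, neg_div]
    show -(cnt key bit b Q (ext y) : ℝ) ≤ _
    linarith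
  refine e2.trans (h2.trans ?_)
  apply Real.exp_le_exp.2
  have hD' : (0 : ℝ) < D := by exact_mod_cast hD
  have hA : Fintype.card A ≤ D := by
    have : Fintype.card A = (N.image key).card := Fintype.card_coe _
    rw [this]
    exact Finset.card_image_le.trans hN
  have h0 : 0 < Fintype.card A := by
    have : Fintype.card A = (N.image key).card := Fintype.card_coe _
    rw [this]
    exact Finset.card_pos.2 (hN0.image _)
  rw [neg_le_neg_iff]
  have hA' : (Fintype.card A : ℝ) ≤ D := by exact_mod_cast hA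
  have h0' : (0 : ℝ) < Fintype.card A := by exact_mod_cast h0
  have e3 : 2 * (4 * (D : ℝ)) ^ 2 * Fintype.card A ≤ 32 * (D : ℝ) ^ 3 := by
    have := mul_le_mul_of_nonneg_left hA' (by positivity : (0 : ℝ) ≤ 32 * (D : ℝ) ^ 2)
    nlinarith
  exact div_le_div_of_nonneg_left (sq_nonneg _) (by positivity) e3

/-- the number of dependencies, events of the second kind -/
theorem degree2 {V I : Type} [Fintype V] (H : SimpleGraph V) (K D : ℕ) (part : V → ℕ)
    (hB : NearBd H K part D) (key : V → I) (bit : V → Bool)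
    (hinj : ∀ u v, key u = key v → bit u = bit v → u = v) (v : V) (m : Fin K) :
    Nat.card {j : V // ¬ Disjoint
      {i | near K (part v) m ∧ ∃ u, H.Adj v u ∧ part u = m ∧ key u = i}
      {i | near K (part j) (part j) ∧ ∃ u, H.Adj j u ∧ part u = part j ∧ key u = i}} ≤
      2 * D ^ 2 := by
  classical
  rw [Nat.card_eq_fintype_card, Fintype.card_subtype]
  by_cases hn : near K (part v) m
  · let N : Finset V := univ.filter (fun u => H.Adj v u ∧ part u = m)
    let Wf : V → Finset V := fun u => univ.filter (fun w => key w = key u)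
    let Mf : V → Finset V := fun w => univ.filter (fun x => H.Adj w x ∧ part x = part w)
    have hN : N.card ≤ D := by
      have := hB.2 v m m.2 hn
      rwa [Nat.card_eq_fintype_card, Fintype.card_subtype] at this
    have hW : ∀ u, (Wf u).card ≤ 2 := by
      intro u
      have : (Wf u).card ≤ (univ : Finset Bool).card := by
        refine Finset.card_le_card_of_injOn bit (fun _ _ => by simp) ?_
        intro w hw w' hw' h
        have a := (mem_filter.1 (Finset.mem_coe.1 hw)).2
        have a' := (mem_filter.1 (Finset.mem_coe.1 hw')).2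
        exact hinj w w' (a.trans a'.symm) h
      simpa using this
    have hM : ∀ w, (Mf w).card ≤ D := by
      intro w
      have := hB.2 w (part w) (hB.1 w) (Or.inl rfl)
      rwa [Nat.card_eq_fintype_card, Fintype.card_subtype] at this
    have hsub : (univ.filter (fun j : V => ¬ Disjoint
      {i | near K (part v) m ∧ ∃ u, H.Adj v u ∧ part u = m ∧ key u = i}
      {i | near K (part j) (part j) ∧ ∃ u, H.Adj j u ∧ part u = part j ∧ key u = i})) ⊆
        N.biUnion (fun u => (Wf u).biUnion (fun w => Mf w)) := by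
      intro v' hj
      have hj' := (mem_filter.1 hj).2
      rw [Set.not_disjoint_iff] at hj'
      obtain ⟨i, ⟨-, u, hu1, hu2, hu3⟩, ⟨-, u', hu1', hu2', hu3'⟩⟩ := hj'
      have hkk : key u' = key u := hu3'.trans hu3.symm
      rw [mem_biUnion]
      refine ⟨u, ?_, ?_⟩
      · rw [mem_filter]
        exact ⟨mem_univ _, hu1, hu2⟩
      rw [mem_biUnion]
      refine ⟨u', ?_, ?_⟩
      · rw [mem_filter]
        exact ⟨mem_univ _, hkk⟩
      rw [mem_filter]
      exact ⟨mem_univ _, hu1'.symm, hu2'.symm⟩
    refine (Finset.card_le_card hsub).trans ?_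
    refine (Finset.card_biUnion_le_card_mul _ _ (2 * D) ?_).trans ?_
    · intro u _
      refine (Finset.card_biUnion_le_card_mul _ _ D ?_).trans
        (Nat.mul_le_mul_right _ (hW u))
      intro w _
      exact hM w
    · calc N.card * (2 * D) ≤ D * (2 * D) := Nat.mul_le_mul_right _ hN
        _ = 2 * D ^ 2 := by ring
  · rw [Finset.card_eq_zero.2]
    · exact Nat.zero_le _
    · rw [Finset.filter_eq_empty_iff]
      intro j _ hj
      rw [Set.not_disjoint_iff] at hj
      obtain ⟨i, ⟨h, -⟩, -⟩ := hj
      exact hn h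

/-- packet HALF -/
theorem goalHALF : GoalMCD → GoalHALF := by
  classical
  intro hMCD V _ H K part cc D D' E E' hK h1 h2 hEE hB hE hexp hexp2
  let part2 : V → ℕ := fun v => 2 * part v + (if cc v then 1 else 0)
  have hp2 : ∀ u v, part2 u = part2 v → part u = part v ∧ cc u = cc v := by
    intro u v h
    have h' : 2 * part u + (if cc u then 1 else 0) = 2 * part v + (if cc v then 1 else 0) := h
    cases hu : cc u <;> cases hv : cc v <;> simp [hu, hv] at h' ⊢ <;> omega
  obtain ⟨r, r1, r2, r3⟩ := Pool.Agent.Helper48.Sey.exists_rank V part2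
  let key : V → Fin K × Bool × Fin (Fintype.card V) := fun v =>
    (⟨part v, hB.1 v⟩, cc v, ⟨r v / 2, lt_of_le_of_lt (Nat.div_le_self _ _) (r3 v)⟩)
  let bit : V → Bool := fun v => decide (r v % 2 = 1)
  have hk1 : ∀ u v, key u = key v → part u = part v ∧ cc u = cc v ∧ r u / 2 = r v / 2 := by
    intro u v h
    have e1 := congrArg (fun z => (z.1 : ℕ)) h
    have e2 := congrArg (fun z => z.2.1) h
    have e3 := congrArg (fun z => (z.2.2 : ℕ)) h
    exact ⟨e1, e2, e3⟩
  have hk2 : ∀ u v, part2 u = part2 v → r u / 2 = r v / 2 → key u = key v := by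
    intro u v e1 e2
    obtain ⟨e3, e4⟩ := hp2 u v e1
    exact Prod.ext (Fin.ext e3) (Prod.ext e4 (Fin.ext e2))
  have hinj : ∀ u v, key u = key v → bit u = bit v → u = v := by
    intro u v h h'
    obtain ⟨e1, e2, e4⟩ := hk1 u v h
    apply r1 u v (by simp only [part2, e1, e2])
    have e3 : (r u % 2 = 1) ↔ (r v % 2 = 1) := by
      have := h'
      simp only [bit, decide_eq_decide] at this
      exact this
    omega
  let N : V → ℕ → Finset V := fun v m => univ.filter (fun u => H.Adj v u ∧ part u = m)
  have hN : ∀ v m, m < K → near K (part v) m → (N v m).card ≤ D := by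
    intro v m hm hn
    have := hB.2 v m hm hn
    rwa [Nat.card_eq_fintype_card, Fintype.card_subtype] at this
  let Q : V → Finset (V × V) := fun v => univ.filter (fun p : V × V =>
    (H.Adj v p.1 ∧ part p.1 = part v) ∧ (H.Adj v p.2 ∧ part p.2 = part v) ∧ H.Adj p.1 p.2)
  have hQE : ∀ v, (Q v).card ≤ E := by
    intro v
    have := hE v
    rwa [Nat.card_eq_fintype_card, Fintype.card_subtype] at this
  let S : (V × Fin K) ⊕ V → Set (Fin K × Bool × Fin (Fintype.card V)) := fun j =>
    match j with
    | Sum.inl j => {i | near K (part j.1) j.2 ∧ ∃ u, H.Adj j.1 u ∧ part u = j.2 ∧ key u = i}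
    | Sum.inr v => {i | near K (part v) (part v) ∧ ∃ u, H.Adj v u ∧ part u = part v ∧ key u = i}
  let A : (V × Fin K) ⊕ V → (Fin K × Bool × Fin (Fintype.card V) → Bool) → Prop := fun j ω =>
    match j with
    | Sum.inl j => near K (part j.1) j.2 ∧ ∃ b : Bool,
        D' < ((N j.1 j.2).filter (fun u => xor (ω (key u)) (bit u) = b)).card
    | Sum.inr v => ∃ b : Bool, E' < cnt key bit b (Q v) ω
  set ea : ℝ := Real.exp (-(2 * ((D' : ℝ) - D / 2) ^ 2 / D)) with hea
  set eb : ℝ := Real.exp (-(((E' : ℝ) - E / 4) ^ 2 / (32 * (D : ℝ) ^ 3))) with heb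
  have hea0 : 0 < ea := Real.exp_pos _
  have heb0 : 0 < eb := Real.exp_pos _
  have hL := @Pool.Agent.Helper51.Girth4.stmtLLL.{0} (Fin K × Bool × Fin (Fintype.card V))
    ((V × Fin K) ⊕ V) Bool _ _ _ _ S A ?_ (2 * max ea eb) (8 * D ^ 2) ?_ ?_ ?_ ?_
  rotate_left
  · rintro (⟨v, m⟩ | v) ω ω' hω
    · rintro ⟨hn, b, hb⟩
      refine ⟨hn, b, ?_⟩
      have : (N v m).filter (fun u => xor (ω' (key u)) (bit u) = b) =
        (N v m).filter (fun u => xor (ω (key u)) (bit u) = b) := by
        refine Finset.filter_congr (fun u hu => ?_)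
        have hu' := (mem_filter.1 hu).2
        rw [hω (key u) ⟨hn, u, hu'.1, hu'.2, rfl⟩]
      show D' < ((N v m).filter (fun u => xor (ω' (key u)) (bit u) = b)).card
      rw [this]
      exact hb
    · rintro ⟨b, hb⟩
      refine ⟨b, ?_⟩
      have : cnt key bit b (Q v) ω' = cnt key bit b (Q v) ω := by
        unfold cnt
        congr 1
        refine Finset.filter_congr (fun p hp => ?_)
        have hp' := (mem_filter.1 hp).2
        rw [hω (key p.1) ⟨Or.inl rfl, p.1, hp'.1.1, hp'.1.2, rfl⟩,
          hω (key p.2) ⟨Or.inl rfl, p.2, hp'.2.1.1, hp'.2.1.2, rfl⟩]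
      rw [this]
      exact hb
  · rintro (⟨v, m⟩ | v)
    · by_cases hn : near K (part v) m
      · have t := fun b => Pool.Agent.Helper48.Sey.tail (N v m) key bit
          (fun u _ w _ => hinj u w) b D D' (hN v m m.2 hn) h1 h2
        have e1 : Pr (A (Sum.inl (v, m))) ≤
            Pr (fun ω : Fin K × Bool × Fin (Fintype.card V) → Bool =>
              (D' < ((N v m).filter (fun u => xor (ω (key u)) (bit u) = true)).card) ∨
              (D' < ((N v m).filter (fun u => xor (ω (key u)) (bit u) = false)).card)) := by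
          apply Pool.Agent.Helper41.Girth4.Pr_mono
          rintro ω ⟨-, b, hb⟩
          cases b
          · exact Or.inr hb
          · exact Or.inl hb
        refine e1.trans ((Pool.Agent.Helper41.Girth4.Pr_or_le _ _).trans ?_)
        have := add_le_add (t true) (t false)
        have := le_max_left ea eb
        linarith
      · have : Pr (A (Sum.inl (v, m))) ≤
            Pr (fun _ : Fin K × Bool × Fin (Fintype.card V) → Bool => False) := by
          apply Pool.Agent.Helper41.Girth4.Pr_mono
          rintro ω ⟨h, -⟩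
          exact hn h
        rw [Pool.Agent.Helper41.Girth4.Pr_false] at this
        exact this.trans (by positivity)
    · have t := fun b => tailB hMCD (N v (part v)) key bit (fun u _ w _ => hinj u w) b (Q v)
        D E E' (by
          intro p hp
          have hp' := (mem_filter.1 hp).2
          exact ⟨mem_filter.2 ⟨mem_univ _, hp'.1⟩, mem_filter.2 ⟨mem_univ _, hp'.2.1⟩⟩)
        (by
          intro p hp
          have hp' := (mem_filter.1 hp).2
          exact hp'.2.2.ne) (hN v _ (hB.1 v) (Or.inl rfl)) (hQE v) h1 hEE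
      have e1 : Pr (A (Sum.inr v)) ≤
          Pr (fun ω : Fin K × Bool × Fin (Fintype.card V) → Bool =>
            (E' < cnt key bit true (Q v) ω) ∨ (E' < cnt key bit false (Q v) ω)) := by
        apply Pool.Agent.Helper41.Girth4.Pr_mono
        rintro ω ⟨b, hb⟩
        cases b
        · exact Or.inr hb
        · exact Or.inl hb
      refine e1.trans ((Pool.Agent.Helper41.Girth4.Pr_or_le _ _).trans ?_)
      have := add_le_add (t true) (t false)
      have := le_max_right ea eb
      linarith
  · have : 1 ≤ D ^ 2 := Nat.one_le_pow _ _ h1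
    omega
  · have key1 : ∀ (v : V) (m : Fin K) (T : Set (Fin K × Bool × Fin (Fintype.card V))),
        T = {i | near K (part v) m ∧ ∃ u, H.Adj v u ∧ part u = m ∧ key u = i} →
        Nat.card {j : (V × Fin K) ⊕ V // ¬ Disjoint T (S j)} ≤ 8 * D ^ 2 := by
      intro v m T hT
      rw [Nat.card_congr (Equiv.subtypeSum (p := fun j => ¬ Disjoint T (S j))), Nat.card_sum]
      have d1 := Pool.Agent.Helper48.Sey.degree H K D part hB key bit
        (fun u w h => (hk1 u w h).1) hinj v m
      have d2 := degree2 H K D part hB key bit hinj v m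
      rw [← hT] at d1 d2
      have := add_le_add d1 d2
      refine this.trans ?_
      omega
    rintro (⟨v, m⟩ | v)
    · exact key1 v m _ rfl
    · exact key1 v ⟨part v, hB.1 v⟩ _ rfl
  · push_cast
    rcases max_choice ea eb with h | h <;> rw [h] <;> linarith
  obtain ⟨ω, hω⟩ := hL
  have hside : ∀ v b, (2 * part v + (if xor (ω (key v)) (bit v) then 1 else 0)) % 2 =
      (if b then 1 else 0) → xor (ω (key v)) (bit v) = b := by
    intro v b h
    cases hx : xor (ω (key v)) (bit v) <;> cases b <;> simp [hx] at h ⊢ <;> omega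
  have hside2 : ∀ u v, 2 * part u + (if xor (ω (key u)) (bit u) then 1 else 0) =
      2 * part v + (if xor (ω (key v)) (bit v) then 1 else 0) →
      part u = part v ∧ xor (ω (key u)) (bit u) = xor (ω (key v)) (bit v) := by
    intro u v h
    cases hx : xor (ω (key u)) (bit u) <;> cases hy : xor (ω (key v)) (bit v) <;>
      simp [hx, hy] at h ⊢ <;> omega
  refine ⟨fun v => 2 * part v + (if xor (ω (key v)) (bit v) then 1 else 0), ?_, ⟨?_, ?_⟩, ?_, ?_⟩
  · intro v
    by_cases h : xor (ω (key v)) (bit v)
    · right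
      simp [h]
    · left
      simp [h]
  · intro v
    have := hB.1 v
    simp only
    split_ifs <;> omega
  · intro v m hm hn
    have hv : (2 * part v + (if xor (ω (key v)) (bit v) then 1 else 0)) / 2 = part v := by
      split_ifs <;> omega
    change near (2 * K) (2 * part v + (if xor (ω (key v)) (bit v) then 1 else 0)) m at hn
    have hn2 := near_half (K := K) (by have := hB.1 v; split_ifs <;> omega) hm hn
    rw [hv] at hn2
    have hm2 : m / 2 < K := by omega
    have hA := hω (Sum.inl (v, ⟨m / 2, hm2⟩))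
    have hA2 : ∀ b : Bool, ((N v (m / 2)).filter
        (fun u => xor (ω (key u)) (bit u) = b)).card ≤ D' := by
      intro b
      by_contra hc
      exact hA ⟨hn2, b, by simpa using hc⟩
    rw [Nat.card_eq_fintype_card, Fintype.card_subtype]
    refine (Finset.card_le_card ?_).trans (hA2 (decide (m % 2 = 1)))
    intro u hu
    have hu' := (mem_filter.1 hu).2
    change H.Adj v u ∧ 2 * part u + (if xor (ω (key u)) (bit u) then 1 else 0) = m at hu'
    rw [mem_filter, mem_filter]
    refine ⟨⟨mem_univ _, hu'.1, ?_⟩, ?_⟩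
    · have := hu'.2
      split_ifs at this <;> omega
    · apply hside
      rw [hu'.2]
      rcases Nat.mod_two_eq_zero_or_one m with h | h <;> simp [h]
  · intro v
    have hA := hω (Sum.inr v)
    have hA2 : ∀ b : Bool, cnt key bit b (Q v) ω ≤ E' := by
      intro b
      by_contra hc
      exact hA ⟨b, by simpa using hc⟩
    rw [Nat.card_eq_fintype_card, Fintype.card_subtype]
    refine (Finset.card_le_card ?_).trans (hA2 (xor (ω (key v)) (bit v)))
    intro p hp
    obtain ⟨⟨q1, q2⟩, ⟨q3, q4⟩, q5⟩ := (mem_filter.1 hp).2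
    obtain ⟨a1, a2⟩ := hside2 _ _ q2
    obtain ⟨a3, a4⟩ := hside2 _ _ q4
    rw [mem_filter, mem_filter]
    exact ⟨⟨mem_univ _, ⟨q1, a1⟩, ⟨q3, a3⟩, q5⟩, a2, a4⟩
  · intro m hm c b hb
    let T : Finset V := univ.filter (fun v => part v = m ∧ cc v = c)
    let g : Bool → ℕ := fun β => (T.filter (fun v => xor (ω (key v)) (bit v) = β)).card
    have f1 : Nat.card {v // part v = m ∧ cc v = c} = T.card := by
      rw [Nat.card_eq_fintype_card, Fintype.card_subtype]
    have f2 : Nat.card {v // 2 * part v + (if xor (ω (key v)) (bit v) then 1 else 0) = 2 * m + b ∧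
        cc v = c} = g (decide (b = 1)) := by
      rw [Nat.card_eq_fintype_card, Fintype.card_subtype]
      simp only [g, T, Finset.filter_filter]
      congr 1
      refine Finset.filter_congr (fun v _ => ?_)
      have hb' : b = 0 ∨ b = 1 := by omega
      rcases hb' with rfl | rfl <;> cases hx : xor (ω (key v)) (bit v) <;> simp <;> omega
    have f3 : T.card = g true + g false := by
      have := Finset.card_eq_sum_card_fiberwise (f := fun v => xor (ω (key v)) (bit v)) (s := T)
        (t := univ) (fun u _ => Finset.mem_coe.2 (Finset.mem_univ _))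
      rw [this, Fintype.sum_bool]
    have f4 : ∀ β, T.card / 2 ≤ g β := by
      intro β
      have := Pool.Agent.Helper48.Sey.sizes part2 r r2 key hk2 ω
        (2 * m + (if c then 1 else 0)) β
      rw [Nat.card_eq_fintype_card, Fintype.card_subtype, Nat.card_eq_fintype_card,
        Fintype.card_subtype] at this
      have k1 : ∀ v, part2 v = 2 * m + (if c then 1 else 0) ↔ part v = m ∧ cc v = c := by
        intro v
        show 2 * part v + (if cc v then 1 else 0) = _ ↔ _
        cases hv : cc v <;> cases c <;> simp <;> omega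
      simp only [k1] at this
      simp only [g, T, Finset.filter_filter]
      exact this
    rw [f1, f2]
    have f5 := f4 true
    have f6 := f4 false
    rcases Bool.eq_false_or_eq_true (decide (b = 1)) with h | h <;> rw [h] <;>
      constructor <;> omega

end Pool.Agent.Helper72.Sey3
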